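import Pool.Agent.Helper18.HF.Gen

set_option autoImplicit false

namespace Pool.Agent.Results.MP_8d2143_an.CoefficientDichotomy

open Filter Topology BoundedContinuousFunction Cardinal
open scoped ComplexOrder

universe u

/-- `A` has an approximate identity of projections. -/
def HasAU (A : Type u) [NonUnitalCStarAlgebra A] : Prop :=
  ∃ (Λ : Type u) (_ : Preorder Λ) (_ : IsDirected Λ (· ≤ ·)) (_ : Nonempty Λ) (e : Λ → A),
    (∀ i, IsIdempotentElem (e i) ∧ IsSelfAdjoint (e i)) ∧
    ∀ a : A, Tendsto (fun i => e i * a) atTop (𝓝 a) ∧ Tendsto (fun i => a * e i) atTop (𝓝 a)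

/-- `A` has an increasing approximate identity of projections. -/
def HasIncAU (A : Type u) [NonUnitalCStarAlgebra A] : Prop :=
  ∃ (Λ : Type u) (_ : Preorder Λ) (_ : IsDirected Λ (· ≤ ·)) (_ : Nonempty Λ) (e : Λ → A),
    (∀ i, IsIdempotentElem (e i) ∧ IsSelfAdjoint (e i)) ∧
    (∀ i j, i ≤ j → e i * e j = e i) ∧
    ∀ a : A, Tendsto (fun i => e i * a) atTop (𝓝 a) ∧ Tendsto (fun i => a * e i) atTop (𝓝 a)

/-- All C*-subalgebras of `E` which have an approximate identity of projections have an increasing one. -/
def AllSub (E : Type u) [NonUnitalCStarAlgebra E] : Prop :=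
  ∀ (D : NonUnitalStarSubalgebra ℂ E) [IsClosed (D : Set E)], HasAU D → HasIncAU D

/-- The same for the hereditary ones. -/
def AllHer (E : Type u) [NonUnitalCStarAlgebra E] : Prop :=
  ∀ (D : NonUnitalStarSubalgebra ℂ E) [IsClosed (D : Set E)],
    (∀ a ∈ D, ∀ b : E, ∀ c ∈ D, a * b * c ∈ D) → HasAU D → HasIncAU D

/-- For every projection `f` of `B`, the projections of the corner `f B f` are central in it. -/
def CornerCentral (B : Type u) [NonUnitalCStarAlgebra B] : Prop :=
  ∀ f p : B, (IsIdempotentElem f ∧ IsSelfAdjoint f) → (IsIdempotentElem p ∧ IsSelfAdjoint p) → p * f = p →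
    ∀ x, p * (f * x * f) = f * x * f * p

/-- Any two projections of `B` which lie below a common one commute. -/
def CommBelow (B : Type u) [NonUnitalCStarAlgebra B] : Prop :=
  ∀ f p q : B, (IsIdempotentElem f ∧ IsSelfAdjoint f) → (IsIdempotentElem p ∧ IsSelfAdjoint p) →
    (IsIdempotentElem q ∧ IsSelfAdjoint q) → p * f = p → q * f = q → p * q = q * p

/-- Let `B` be a C*-algebra, and write `T →ᵇ B` for the C*-algebra of bounded continuous functions from `T` to `B`.
(1) Suppose that some continuous map from the topological space `T` to `{0,1}^I`, `#I ≥ ℵ₂`, has dense image.  Then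
the following are equivalent: every C*-algebra with an approximate identity of projections and a separating family of
*-homomorphisms into `B` has an increasing one; the same for the C*-subalgebras of `T →ᵇ B`; for the hereditary
ones; the projections of each corner `f B f`, `f` a projection, are central in it; projections of `B` below a common
one commute.
(2) If `B` has a dense subset of size at most `ℵ₁` and `T = {0,1}^I`, then the following are equivalent: all
C*-subalgebras of `T →ᵇ B` with an approximate identity of projections have an increasing one; the same for the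
hereditary ones; the projections of each corner `f B f` are central in it or `#I ≤ ℵ₁`.
(3) If `T` is infinite and discrete and `#B ≤ 2 ^ #T`, then the following are equivalent: all C*-subalgebras of
`T →ᵇ B` with an approximate identity of projections have an increasing one; the same for the hereditary ones; the
projections of each corner `f B f` are central in it or `2 ^ #T ≤ ℵ₁`.
(4) If `T` is infinite and discrete, then all hereditary C*-subalgebras of the algebra of bounded functions from `T`
to the two by two matrices with an approximate identity of projections have an increasing one if and only if `T` is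
countable and the continuum hypothesis holds. -/
theorem result :
    (∀ (B : Type u) [NonUnitalCStarAlgebra B],
      (∀ (T I : Type u) [TopologicalSpace T] (W : T → I → Bool), Continuous W → DenseRange W → ℵ_ 2 ≤ #I →
        List.TFAE [
          ∀ (A S : Type u) [NonUnitalCStarAlgebra A] (π : S → A →⋆ₙₐ[ℂ] B), (∀ a, (∀ s, π s a = 0) → a = 0) →
            HasAU A → HasIncAU A,
          AllSub (T →ᵇ B),
          AllHer (T →ᵇ B),
          CornerCentral B,
          CommBelow B]) ∧
      (∀ I : Type u, (∃ G : Set B, #G ≤ ℵ_ 1 ∧ Dense G) →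
        List.TFAE [
          AllSub ((I → Bool) →ᵇ B),
          AllHer ((I → Bool) →ᵇ B),
          CornerCentral B ∨ #I ≤ ℵ_ 1]) ∧
      (∀ (T : Type u) [TopologicalSpace T] [DiscreteTopology T] [Infinite T], #B ≤ 2 ^ #T →
        List.TFAE [
          AllSub (T →ᵇ B),
          AllHer (T →ᵇ B),
          CornerCentral B ∨ 2 ^ #T ≤ ℵ_ 1])) ∧
    (∀ (T : Type) [TopologicalSpace T] [DiscreteTopology T] [Infinite T],
      AllHer (T →ᵇ CStarMatrix (Fin 2) (Fin 2) ℂ) ↔ (Countable T ∧ 𝔠 = (ℵ_ 1 : Cardinal.{0}))) := by
  refine ⟨fun B _ => ⟨fun T I _ W hWc hWd hI => ?_, fun I ⟨G, hG, hd⟩ => ?_, fun T _ _ _ hB => ?_⟩,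
    fun T _ _ _ => Helper18.HF.her_M2⟩
  · tfae_have 1 → 2 := fun h D hcl hA => h D T (fun t => Helper18.HF.evT D t)
      (fun a ha => Subtype.ext (BoundedContinuousFunction.ext fun t => ha t)) hA
    tfae_have 2 → 3 := fun h D hcl _ hA => h D hA
    tfae_have 3 → 4 := by
      intro h
      by_contra hC
      obtain ⟨D, hcl, hher, h1, h2⟩ := Helper18.HF.exists_bad (T := T) hI hWc hWd hC
      exact h2 (h D hher h1)
    tfae_have 4 → 5 := Helper18.HF.commB_of_cent
    tfae_have 5 → 1 := fun h A S _ π hπ hA => Helper18.HF.inc_of_sep h π hπ hA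
    tfae_finish
  · tfae_have 1 → 2 := fun h D hcl _ hA => h D hA
    tfae_have 2 → 3 := fun h => Helper18.HF.her_imp_cube h
    tfae_have 3 → 1 := fun h D hcl hA => Helper18.HF.sub_of_cube hG hd h D hA
    tfae_finish
  · tfae_have 1 → 2 := fun h D hcl _ hA => h D hA
    tfae_have 2 → 3 := fun h => Helper18.HF.her_imp h
    tfae_have 3 → 1 := fun h D hcl hA => Helper18.HF.sub_of hB h D hA
    tfae_finish

end Pool.Agent.Results.MP_8d2143_an.CoefficientDichotomy
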