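import Pool.Agent.Helper18.AIU.Comm

set_option autoImplicit false

namespace Pool.Agent.Results.MP_8d2143_an.EventualCommutation

open Filter Topology

universe u v

/-- Let `A` be a C*-algebra with an approximate identity of projections.  The following are equivalent.
(1) `A` has an increasing approximate identity of projections.
(2) Some net `c` of selfadjoint elements of `A` satisfies `c i * x → x` for every `x`, and every `c i` commutes with
`c j` for all large `j`.
(3) Some net `a` of elements of `A` satisfies `a i * x → x` for every `x`, and `a j * a i = a i` for each `i` and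
all large `j`.
(4) There is a nonempty set `S` of selfadjoint elements of `A` such that, for all `c`, `d` in `S`, every finite
set `F` in `A` and `δ > 0`, some `e` in `S` commutes with `c` and `d` and satisfies `‖x - e * x‖ ≤ δ` on `F`. -/
theorem result (A : Type u) [NonUnitalCStarAlgebra A]
    (hA : ∃ (Λ : Type v) (_ : Preorder Λ) (_ : IsDirected Λ (· ≤ ·)) (_ : Nonempty Λ) (e : Λ → A),
        (∀ i, IsIdempotentElem (e i) ∧ IsSelfAdjoint (e i)) ∧
        ∀ a : A, Tendsto (fun i => e i * a) atTop (𝓝 a) ∧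
          Tendsto (fun i => a * e i) atTop (𝓝 a)) :
    List.TFAE [
      (∃ (Λ : Type u) (_ : Preorder Λ) (_ : IsDirected Λ (· ≤ ·)) (_ : Nonempty Λ) (e : Λ → A),
        (∀ i, IsIdempotentElem (e i) ∧ IsSelfAdjoint (e i)) ∧
        (∀ i j, i ≤ j → e i * e j = e i) ∧
        ∀ a : A, Tendsto (fun i => e i * a) atTop (𝓝 a) ∧
          Tendsto (fun i => a * e i) atTop (𝓝 a)),
      (∃ (Λ : Type u) (_ : Preorder Λ) (_ : IsDirected Λ (· ≤ ·)) (_ : Nonempty Λ) (c : Λ → A),
        (∀ i, IsSelfAdjoint (c i)) ∧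
        (∀ i, ∀ᶠ j in atTop, c j * c i = c i * c j) ∧
        ∀ x : A, Tendsto (fun i => c i * x) atTop (𝓝 x)),
      (∃ (Λ : Type u) (_ : Preorder Λ) (_ : IsDirected Λ (· ≤ ·)) (_ : Nonempty Λ) (a : Λ → A),
        (∀ i, ∀ᶠ j in atTop, a j * a i = a i) ∧
        ∀ x : A, Tendsto (fun i => a i * x) atTop (𝓝 x)),
      (∃ S : Set A, S.Nonempty ∧ (∀ c ∈ S, IsSelfAdjoint c) ∧
        ∀ c ∈ S, ∀ d ∈ S, ∀ (F : Finset A) (δ : ℝ), 0 < δ →
          ∃ e ∈ S, e * c = c * e ∧ e * d = d * e ∧ ∀ x ∈ F, ‖x - e * x‖ ≤ δ)] := by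
  obtain ⟨Λ₀, i1, i2, i3, e₀, he₀, ha₀⟩ := hA
  have hH := Helper18.AIU.hasPj_of_net e₀ he₀ fun a => (ha₀ a).1
  tfae_have 1 → 2 := by
    rintro ⟨Λ, j1, j2, j3, e, he, hm, ha⟩
    refine ⟨Λ, j1, j2, j3, e, fun i => (he i).2, fun i => ?_, fun x => (ha x).1⟩
    refine (eventually_ge_atTop i).mono fun j hij => ?_
    have h1 := congrArg star (hm i j hij)
    rw [star_mul, (he i).2.star_eq, (he j).2.star_eq] at h1
    rw [h1, hm i j hij]
  tfae_have 2 → 4 := by
    rintro ⟨Λ, j1, j2, j3, c, hs, hc, hu⟩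
    refine ⟨Set.range c, Set.range_nonempty c, ?_, ?_⟩
    · rintro _ ⟨i, rfl⟩
      exact hs i
    · rintro _ ⟨i, rfl⟩ _ ⟨j, rfl⟩ F δ hδ
      have h1 : ∀ᶠ k in atTop, ∀ x ∈ F, ‖x - c k * x‖ ≤ δ := by
        rw [Filter.eventually_all_finset]
        intro x _
        refine (Metric.tendsto_nhds.1 (hu x) δ hδ).mono fun k hk => ?_
        rw [dist_comm, dist_eq_norm] at hk
        exact hk.le
      obtain ⟨k, hk1, hk2, hk3⟩ := ((hc i).and ((hc j).and h1)).exists
      exact ⟨c k, ⟨k, rfl⟩, hk1, hk2, hk3⟩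
  tfae_have 4 → 3 := by
    rintro ⟨S, hne, hS, h⟩
    exact Helper18.AIU.net_of_family S hne hS h
  tfae_have 3 → 1 := by
    rintro ⟨Λ, j1, j2, j3, a, ha, hu⟩
    exact Helper18.AIU.main_equiv hH a ha hu
  tfae_finish

end Pool.Agent.Results.MP_8d2143_an.EventualCommutation
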