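import Pool.Agent.Helper18.AIU.Main

set_option autoImplicit false

namespace Pool.Agent.Results.MP_8d2143_an.OmegaOneUnital

open Filter Topology

universe u v

/-- Let `A` be a C*-algebra which, as a closed right ideal, is generated by at most `ℵ₁` elements.  If `A` has an
approximate identity of projections, then `A` has an increasing approximate identity of projections. -/
theorem result (A : Type u) [NonUnitalCStarAlgebra A]
    (hX : ∃ X : Set A, Cardinal.mk X ≤ Cardinal.aleph 1 ∧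
      Dense (AddSubgroup.closure {y : A | ∃ x ∈ X, ∃ b : A, y = x * b} : Set A))
    (hA : ∃ (Λ : Type v) (_ : Preorder Λ) (_ : IsDirected Λ (· ≤ ·)) (_ : Nonempty Λ) (e : Λ → A),
        (∀ i, IsIdempotentElem (e i) ∧ IsSelfAdjoint (e i)) ∧
        ∀ a : A, Tendsto (fun i => e i * a) atTop (𝓝 a) ∧
          Tendsto (fun i => a * e i) atTop (𝓝 a)) :
    ∃ (Λ : Type u) (_ : Preorder Λ) (_ : IsDirected Λ (· ≤ ·)) (_ : Nonempty Λ) (e : Λ → A),
        (∀ i, IsIdempotentElem (e i) ∧ IsSelfAdjoint (e i)) ∧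
        (∀ i j, i ≤ j → e i * e j = e i) ∧
        ∀ a : A, Tendsto (fun i => e i * a) atTop (𝓝 a) ∧
          Tendsto (fun i => a * e i) atTop (𝓝 a) := by
  obtain ⟨X, hX1, hX2⟩ := hX
  obtain ⟨Λ₀, i1, i2, i3, e₀, he₀, ha₀⟩ := hA
  exact Helper18.AIU.main_omega X hX1 hX2 (Helper18.AIU.hasPj_of_net e₀ he₀ fun a => (ha₀ a).1)

end Pool.Agent.Results.MP_8d2143_an.OmegaOneUnital
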