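import Pool.Agent.Helper94.AU.Final

set_option autoImplicit false

open Pool.Agent.Helper94.AU

namespace Pool.Agent.Results.MP_8d2143_an.StableThreshold

/-- Let `H` be an infinite dimensional Hilbert space. If `A` is a `|H|`-unital C*-algebra with an
approximate identity of projections, then `A ⊗ K(H)` has an increasing approximate identity of
projections. On the other hand there is a `|H|⁺`-unital C*-algebra `A` with an approximate identity
of projections such that `A ⊗ K(H)` has an approximate identity of projections, but no increasing
one. -/
theorem result (H : Type) [NormedAddCommGroup H] [InnerProductSpace ℂ H] [CompleteSpace H]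
    (hH : ¬ FiniteDimensional ℂ H) :
    (∀ (A B : Type) [NonUnitalCStarAlgebra A] [NonUnitalCStarAlgebra B],
      Nonempty (Stabilization A H B) → CardUnital A (Cardinal.mk H) → HasAU A → HasIncAU B) ∧
    (∃ (A B : Type) (_ : NonUnitalCStarAlgebra A) (_ : NonUnitalCStarAlgebra B),
      Nonempty (Stabilization A H B) ∧ CardUnital A (Order.succ (Cardinal.mk H)) ∧ HasAU A ∧
        HasAU B ∧ ¬ HasIncAU B) :=
  ⟨fun A B _ _ ⟨S⟩ hD hA => positive H hH A B S hD hA, negative H hH⟩

end Pool.Agent.Results.MP_8d2143_an.StableThreshold
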